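import Pool.Agent.W200.MR.Stm

/-! Part L2b of the disproof of Q1 of MP_c45d52_nt (project of helper200). -/

set_option autoImplicit false

open Finset Filter Topology

namespace Pool.Agent.W765.MR

open Pool.Agent.W200.MR

theorem t_L2b : S_L2b := by
  intro T A Y0 q κ hq hκ
  obtain ⟨D, hD⟩ := exists_nat_ge (16 * (A : ℝ) ^ 2 / q)
  set E : ℕ := D + T + Y0 + 1 with hE
  have h0 := tendsto_pow_const_div_const_pow_of_one_lt 0 (one_lt_two : (1 : ℝ) < 2)
  have h1 := tendsto_pow_const_div_const_pow_of_one_lt 1 (one_lt_two : (1 : ℝ) < 2)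
  have h2 : Tendsto (fun j : ℕ => 4 * Real.sqrt T * ((Nat.log 2 E : ℝ) * ((j : ℝ) ^ 0 / 2 ^ j) +
      2 * T * ((j : ℝ) ^ 1 / 2 ^ j))) atTop
      (𝓝 (4 * Real.sqrt T * ((Nat.log 2 E : ℝ) * 0 + 2 * T * 0))) :=
    ((h0.const_mul _).add (h1.const_mul _)).const_mul _
  have h3 : (4 * Real.sqrt T * ((Nat.log 2 E : ℝ) * 0 + 2 * T * 0)) = 0 := by ring
  rw [h3] at h2
  obtain ⟨j, hj⟩ := (h2.eventually_lt_const hκ).exists
  have h4 : 1 ≤ 4 ^ (j * T) := Nat.one_le_pow _ _ (by norm_num)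
  have hEY : E ≤ E * 4 ^ (j * T) := Nat.le_mul_of_pos_right _ h4
  refine ⟨4 ^ j, E * 4 ^ (j * T), Nat.one_le_pow _ _ (by norm_num), by omega, by omega, ?_, ?_⟩
  · have h5 : 16 * (A : ℝ) ^ 2 * ((4 ^ j : ℕ) : ℝ) ^ T / q =
        16 * (A : ℝ) ^ 2 / q * (4 : ℝ) ^ (j * T) := by
      push_cast
      rw [← pow_mul]
      ring
    rw [h5]
    push_cast
    apply mul_le_mul_of_nonneg_right _ (by positivity)
    refine hD.trans ?_
    rw [hE]
    push_cast
    have hT0 : (0 : ℝ) ≤ T := Nat.cast_nonneg _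
    have hY0 : (0 : ℝ) ≤ Y0 := Nat.cast_nonneg _
    linarith
  · have h6 : Nat.log 2 (E * 4 ^ (j * T)) = Nat.log 2 E + 2 * j * T := by
      have : E * 4 ^ (j * T) = E * 2 ^ (2 * j * T) := by
        rw [show (4 : ℕ) = 2 ^ 2 by norm_num, ← pow_mul, mul_assoc]
      rw [this]
      have h8 : ∀ i : ℕ, Nat.log 2 (E * 2 ^ i) = Nat.log 2 E + i := by
        intro i
        induction i with
        | zero => simp
        | succ i ih =>
          have hne : E * 2 ^ i ≠ 0 := by positivity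
          rw [pow_succ, ← mul_assoc, Nat.log_mul_base (by norm_num) hne, ih, add_assoc]
      exact h8 _
    have h7 : Real.sqrt ((T : ℝ) / ((4 ^ j : ℕ) : ℝ)) = Real.sqrt T / 2 ^ j := by
      rw [Real.sqrt_div' _ (by positivity)]
      congr 1
      push_cast
      rw [show (4 : ℝ) = 2 ^ 2 by norm_num, ← pow_mul, mul_comm 2 j, pow_mul,
        Real.sqrt_sq (by positivity)]
    rw [h6, h7]
    refine le_of_eq_of_le ?_ hj.le
    push_cast
    ring

end Pool.Agent.W765.MR
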